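import Pool.Agent.Helper22_DEN.Stmt

open scoped BigOperators

namespace Pool.Agent.DEN.H26

/-- Invariance of `κ` under passage to representatives. -/
theorem ker_out {H : Type} [Group H] (L : Subgroup H) (κ : H → ℂ)
    (hinv : ∀ k ∈ L, ∀ g, κ (k * g) = κ g ∧ κ (g * k) = κ g) (g h : H) :
    κ (g * (QuotientGroup.mk h : H ⧸ L).out) = κ (g * h) := by
  obtain ⟨k, hk⟩ := QuotientGroup.mk_out_eq_mul L h
  rw [hk, ← mul_assoc]
  exact (hinv _ k.2 _).2

theorem ker : KerStmt := by
  classical
  intro H _ L κ τ hτ hinv hfin hnorm m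
  induction m with
  | zero =>
    refine ⟨fun y => if y = QuotientGroup.mk 1 then 1 else 0, ?_, ?_, ?_, ?_⟩
    · refine (Set.finite_singleton (QuotientGroup.mk 1 : H ⧸ L)).subset ?_
      intro y hy
      by_contra h
      exact hy (if_neg h)
    · intro y hy
      by_cases h : y = QuotientGroup.mk 1
      · exact ⟨[], rfl, by simp, by simpa using h⟩
      · simp [h] at hy
    · rw [finsum_eq_single _ (QuotientGroup.mk 1 : H ⧸ L) (fun y hy => by simp [hy])]
      simp
    · intro F lam _
      rw [finsum_eq_single _ (QuotientGroup.mk 1 : H ⧸ L) (fun y hy => by simp [hy])]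
      simp
  | succ m ih =>
    obtain ⟨c, hcf, hcs, hcn, hce⟩ := ih
    set S : Finset (H ⧸ L) := hcf.toFinset with hS
    have hSm : ∀ x, x ∈ S ↔ c x ≠ 0 := by intro x; rw [hS, Set.Finite.mem_toFinset]; rfl
    -- the sections of the kernel are finite
    have hsec : ∀ x : H ⧸ L, {y : H ⧸ L | κ (x.out⁻¹ * y.out) ≠ 0}.Finite := by
      intro x
      have hinj : Set.InjOn (fun y : H ⧸ L => x.out⁻¹ • y)
          ((fun y : H ⧸ L => x.out⁻¹ • y) ⁻¹' {y : H ⧸ L | κ y.out ≠ 0}) :=
        fun a _ b _ h => smul_left_cancel _ h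
      refine (hfin.preimage hinj).subset ?_
      intro y hy
      have h1 : x.out⁻¹ • y = (QuotientGroup.mk (x.out⁻¹ * y.out) : H ⧸ L) := by
        conv_lhs => rw [← QuotientGroup.out_eq' y]
        rfl
      have h2 := ker_out L κ hinv 1 (x.out⁻¹ * y.out)
      simp only [one_mul] at h2
      show κ (x.out⁻¹ • y : H ⧸ L).out ≠ 0
      rw [h1, h2]
      exact hy
    set T : Finset (H ⧸ L) := S.biUnion (fun x => (hsec x).toFinset) with hT
    let d : H ⧸ L → ℂ := fun y => ∑ x ∈ S, c x * κ (x.out⁻¹ * y.out)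
    have hdT : ∀ y, d y ≠ 0 → y ∈ T := by
      intro y hy
      obtain ⟨x, hx, hx'⟩ := Finset.exists_ne_zero_of_sum_ne_zero hy
      rw [hT, Finset.mem_biUnion]
      exact ⟨x, hx, by rw [Set.Finite.mem_toFinset]; exact right_ne_zero_of_mul hx'⟩
    have hdsub : Function.support d ⊆ (T : Set (H ⧸ L)) := fun y hy => hdT y hy
    refine ⟨d, T.finite_toSet.subset hdsub, ?_, ?_, ?_⟩
    · intro y hy
      obtain ⟨x, hx, hx'⟩ := Finset.exists_ne_zero_of_sum_ne_zero hy
      obtain ⟨gs, hg1, hg2, hg3⟩ := hcs x (left_ne_zero_of_mul hx')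
      have hk := right_ne_zero_of_mul hx'
      obtain ⟨k, hk'⟩ := QuotientGroup.mk_out_eq_mul L gs.prod
      rw [← hg3] at hk'
      refine ⟨gs ++ [(k : H) * (x.out⁻¹ * y.out)], by simp [hg1], ?_, ?_⟩
      · intro g hg
        rcases List.mem_append.mp hg with h | h
        · exact hg2 g h
        · rw [List.mem_singleton.mp h, (hinv _ k.2 _).1]
          exact hk
      · rw [List.prod_append, List.prod_singleton, ← mul_assoc, ← hk', mul_inv_cancel_left,
          QuotientGroup.out_eq']
    · -- the norm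
      have hn1 : ∑ᶠ y, ‖c y‖ ^ 2 = ∑ x ∈ S, ‖c x‖ ^ 2 := by
        apply finsum_eq_sum_of_support_subset
        intro x hx
        rw [Finset.mem_coe, hSm]
        intro h
        exact hx (by simp [h])
      have hn2 : ∑ᶠ y, ‖d y‖ ^ 2 = ∑ y ∈ T, ‖d y‖ ^ 2 := by
        apply finsum_eq_sum_of_support_subset
        intro y hy
        refine hdT y ?_
        intro h
        exact hy (by simp [h])
      rw [hn1] at hcn
      rw [hn2]
      set A := ∑ x ∈ S, ‖c x‖ ^ 2 with hA
      set B := ∑ y ∈ T, ‖d y‖ ^ 2 with hB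
      have hA0 : 0 ≤ A := Finset.sum_nonneg fun _ _ => by positivity
      have hB0 : 0 ≤ B := Finset.sum_nonneg fun _ _ => by positivity
      have h1 := hnorm S T (fun y => (starRingEnd ℂ) (d y))
      simp only [RCLike.norm_conj] at h1
      rw [← hB] at h1
      have h2 : (B : ℂ) = ∑ x ∈ S, c x * ∑ y ∈ T, κ (x.out⁻¹ * y.out) * (starRingEnd ℂ) (d y) := by
        have : (B : ℂ) = ∑ y ∈ T, d y * (starRingEnd ℂ) (d y) := by
          rw [hB]
          push_cast
          refine Finset.sum_congr rfl fun y _ => ?_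
          rw [Complex.mul_conj, Complex.normSq_eq_norm_sq]
          push_cast
          rfl
        rw [this]
        simp only [d, Finset.sum_mul]
        rw [Finset.sum_comm]
        refine Finset.sum_congr rfl fun x _ => ?_
        rw [Finset.mul_sum]
        refine Finset.sum_congr rfl fun y _ => ?_
        ring
      have h3 : B ≤ ∑ x ∈ S, ‖c x‖ * ‖∑ y ∈ T, κ (x.out⁻¹ * y.out) * (starRingEnd ℂ) (d y)‖ := by
        have : B = ‖(B : ℂ)‖ := by
          rw [Complex.norm_real, Real.norm_of_nonneg hB0]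
        rw [this, h2]
        refine (norm_sum_le _ _).trans (Finset.sum_le_sum fun x _ => ?_)
        rw [norm_mul]
      have h4 : B ^ 2 ≤ A * (τ ^ 2 * B) := by
        have h5 := Finset.sum_mul_sq_le_sq_mul_sq S (fun x => ‖c x‖)
          (fun x => ‖∑ y ∈ T, κ (x.out⁻¹ * y.out) * (starRingEnd ℂ) (d y)‖)
        calc B ^ 2 ≤ (∑ x ∈ S, ‖c x‖ *
            ‖∑ y ∈ T, κ (x.out⁻¹ * y.out) * (starRingEnd ℂ) (d y)‖) ^ 2 := by
              apply pow_le_pow_left₀ hB0 h3
          _ ≤ _ := h5
          _ ≤ A * (τ ^ 2 * B) := by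
              apply mul_le_mul_of_nonneg_left h1 hA0
      have h6 : B ≤ τ ^ 2 * A := by
        rcases hB0.eq_or_lt with h0 | h0
        · rw [← h0]; positivity
        · have : B * B ≤ (τ ^ 2 * A) * B := by nlinarith
          exact le_of_mul_le_mul_right this h0
      calc B ≤ τ ^ 2 * A := h6
        _ ≤ τ ^ 2 * τ ^ (2 * m) := mul_le_mul_of_nonneg_left hcn (by positivity)
        _ = τ ^ (2 * (m + 1)) := by ring
    · intro F lam hF
      have h0 := hce F lam hF
      have h1 : ∑ᶠ y, c y * F y = ∑ x ∈ S, c x * F x := by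
        apply finsum_eq_sum_of_support_subset
        intro x hx
        rw [Finset.mem_coe, hSm]
        intro h
        exact hx (by simp [h])
      have h2 : ∑ᶠ y, d y * F y = ∑ y ∈ T, d y * F y := by
        apply finsum_eq_sum_of_support_subset
        intro y hy
        refine hdT y ?_
        intro h
        exact hy (by simp [h])
      have h3 : ∀ x ∈ S, ∑ y ∈ T, κ (x.out⁻¹ * y.out) * F y = lam * F x := by
        intro x hx
        rw [← hF x]
        symm
        apply finsum_eq_sum_of_support_subset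
        intro y hy
        rw [Finset.mem_coe, hT, Finset.mem_biUnion]
        exact ⟨x, hx, by rw [Set.Finite.mem_toFinset]; exact left_ne_zero_of_mul hy⟩
      rw [h2]
      simp only [d, Finset.sum_mul]
      rw [Finset.sum_comm]
      calc ∑ x ∈ S, ∑ y ∈ T, c x * κ (x.out⁻¹ * y.out) * F y
          = ∑ x ∈ S, c x * (lam * F x) := by
            refine Finset.sum_congr rfl fun x hx => ?_
            rw [← h3 x hx, Finset.mul_sum]
            exact Finset.sum_congr rfl fun y _ => by ring
        _ = lam * ∑ x ∈ S, c x * F x := by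
            rw [Finset.mul_sum]
            exact Finset.sum_congr rfl fun y _ => by ring
        _ = lam ^ (m + 1) * F (QuotientGroup.mk 1) := by
            rw [← h1, h0]; ring

end Pool.Agent.DEN.H26
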