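import Pool.Agent.Helper22_DEN.Stmt

open scoped BigOperators

namespace Pool.Agent.DEN.H26

theorem bes : BesStmt := by
  classical
  intro Δ X _ _ hstab n f hinv hsup horth I S z c M hM
  have hfin : ∀ x : X, Finite (MulAction.stabilizer Δ x) := hstab
  let Ω := MulAction.orbitRel.Quotient Δ X
  let q : X → Ω := fun x => Quotient.mk (MulAction.orbitRel Δ X) x
  let O : Finset Ω := (Finset.univ.biUnion fun j => (hsup j).toFinset) ∪ S.image (fun i => q (z i))
  have hOf : ∀ j o, f j o.out ≠ 0 → o ∈ O := by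
    intro j o h
    apply Finset.mem_union_left
    rw [Finset.mem_biUnion]
    exact ⟨j, Finset.mem_univ _, by rw [Set.Finite.mem_toFinset]; exact h⟩
  have hOz : ∀ i ∈ S, q (z i) ∈ O := by
    intro i hi
    exact Finset.mem_union_right _ (Finset.mem_image_of_mem _ hi)
  let w : Ω → ℝ := fun o => Nat.card (MulAction.stabilizer Δ o.out)
  have hw : ∀ o, 0 < w o := by
    intro o
    have := hfin o.out
    have h : 0 < Nat.card (MulAction.stabilizer Δ o.out) := Nat.card_pos
    show (0 : ℝ) < (Nat.card (MulAction.stabilizer Δ o.out) : ℝ)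
    exact_mod_cast h
  have hfq : ∀ j x, f j (q x).out = f j x := by
    intro j x
    have h1 : (MulAction.orbitRel Δ X) (q x).out x := Quotient.exact (Quotient.out_eq (q x))
    rw [MulAction.orbitRel_apply] at h1
    obtain ⟨γ, hγ⟩ := h1
    have h2 := hinv j γ x
    rw [← h2]
    exact congrArg (f j) hγ.symm
  -- the orthonormal family
  let v : Fin n → EuclideanSpace ℂ O :=
    fun j => WithLp.toLp 2 (fun o => f j o.1.out / (Real.sqrt (w o.1) : ℂ))
  have hsq : ∀ o, (Real.sqrt (w o) : ℂ) * (Real.sqrt (w o) : ℂ) = (w o : ℂ) := by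
    intro o
    rw [← Complex.ofReal_mul, Real.mul_self_sqrt (hw o).le]
  have hsq0 : ∀ o, (Real.sqrt (w o) : ℂ) ≠ 0 := by
    intro o
    have := Real.sqrt_pos.mpr (hw o)
    exact_mod_cast this.ne'
  have hv : Orthonormal ℂ v := by
    rw [orthonormal_iff_ite]
    intro i j
    rw [← horth i j, PiLp.inner_apply]
    have h1 : ∑ᶠ o : Ω, (starRingEnd ℂ) (f i o.out) * f j o.out /
        Nat.card (MulAction.stabilizer Δ o.out) =
        ∑ o ∈ O, (starRingEnd ℂ) (f i o.out) * f j o.out / (w o : ℂ) := by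
      have h2 : ∀ o : Ω, (starRingEnd ℂ) (f i o.out) * f j o.out /
        Nat.card (MulAction.stabilizer Δ o.out) =
        (starRingEnd ℂ) (f i o.out) * f j o.out / (w o : ℂ) := by
        intro o
        simp only [w]
        push_cast
        rfl
      rw [finsum_congr h2]
      apply finsum_eq_sum_of_support_subset
      intro o ho
      apply hOf j o
      intro h
      exact ho (by simp [h])
    rw [h1, ← Finset.sum_coe_sort O]
    refine Finset.sum_congr rfl fun o _ => ?_
    simp only [v, RCLike.inner_apply, map_div₀, Complex.conj_ofReal]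
    rw [div_mul_div_comm, hsq, mul_comm (f j _)]
  -- the vector
  let a : Ω → ℂ := fun o => ∑ i ∈ S.filter (fun i => q (z i) = o), c i
  let x : EuclideanSpace ℂ O :=
    WithLp.toLp 2 (fun o => (Real.sqrt (w o.1) : ℂ) * (starRingEnd ℂ) (a o.1))
  have hx1 : ∀ j, inner ℂ x (v j) = ∑ i ∈ S, c i * f j (z i) := by
    intro j
    rw [PiLp.inner_apply]
    have h1 : ∀ o : O, inner ℂ (x o) (v j o) = a o.1 * f j o.1.out := by
      intro o
      simp only [v, x, RCLike.inner_apply, map_mul, Complex.conj_ofReal, Complex.conj_conj]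
      have := hsq0 o.1
      field_simp
    rw [Finset.sum_congr rfl fun o _ => h1 o, Finset.sum_coe_sort O (fun o => a o * f j o.out)]
    rw [← Finset.sum_fiberwise_of_maps_to (s := S) (t := O) (g := fun i => q (z i)) hOz]
    refine Finset.sum_congr rfl fun o _ => ?_
    simp only [a, Finset.sum_mul]
    refine Finset.sum_congr rfl fun i hi => ?_
    rw [← (Finset.mem_filter.mp hi).2, hfq]
  have hB := Orthonormal.sum_inner_products_le (𝕜 := ℂ) (s := Finset.univ) x hv
  have hx2 : ‖x‖ ^ 2 = ∑ o ∈ O, w o * ‖a o‖ ^ 2 := by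
    rw [EuclideanSpace.norm_sq_eq, ← Finset.sum_coe_sort O]
    refine Finset.sum_congr rfl fun o _ => ?_
    simp only [x, norm_mul, RCLike.norm_conj, Complex.norm_real, mul_pow]
    rw [Real.norm_of_nonneg (Real.sqrt_nonneg _), Real.sq_sqrt (hw _).le]
  -- the count
  have hcount : ∀ o, ∀ i ∈ S.filter (fun i => q (z i) = o),
      w o * (S.filter (fun i => q (z i) = o)).card ≤ M := by
    intro o i hi
    obtain ⟨hiS, hio⟩ := Finset.mem_filter.mp hi
    set So := S.filter (fun i => q (z i) = o) with hSo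
    have hγ : ∀ i', ∃ γ : Δ, i' ∈ So → γ • z i = z i' := by
      intro i'
      by_cases h : i' ∈ So
      · have h1 : q (z i') = q (z i) := by
          rw [hio]; exact (Finset.mem_filter.mp h).2
        have h2 : (MulAction.orbitRel Δ X) (z i') (z i) := Quotient.exact h1
        rw [MulAction.orbitRel_apply] at h2
        obtain ⟨γ, hγ⟩ := h2
        exact ⟨γ, fun _ => hγ⟩
      · exact ⟨1, fun h' => absurd h' h⟩
    choose γ hγ using hγ
    have := hfin (z i)
    have := Fintype.ofFinite (MulAction.stabilizer Δ (z i))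
    let Q : Finset (Δ × I) := ((Finset.univ : Finset (MulAction.stabilizer Δ (z i))) ×ˢ So).image
      (fun p => (γ p.2 * (p.1 : Δ), p.2))
    have hQ : Q.card = Fintype.card (MulAction.stabilizer Δ (z i)) * So.card := by
      rw [Finset.card_image_of_injective, Finset.card_product, Finset.card_univ]
      rintro ⟨s, i1⟩ ⟨s', i2⟩ h
      simp only [Prod.mk.injEq] at h
      obtain ⟨h1, h2⟩ := h
      subst h2
      exact Prod.ext (Subtype.ext (mul_left_cancel h1)) rfl
    have hQM := hM i hiS Q (by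
      intro p hp
      obtain ⟨⟨s, i'⟩, hs, rfl⟩ := Finset.mem_image.mp hp
      have hi' := (Finset.mem_product.mp hs).2
      refine ⟨(Finset.mem_filter.mp hi').1, ?_⟩
      show (γ i' * (s : Δ)) • z i = z i'
      rw [mul_smul, MulAction.mem_stabilizer_iff.mp s.2]
      exact hγ i' hi')
    have hst : Nat.card (MulAction.stabilizer Δ o.out) =
        Fintype.card (MulAction.stabilizer Δ (z i)) := by
      have h1 : (MulAction.orbitRel Δ X) o.out (z i) :=
        Quotient.exact ((Quotient.out_eq o).trans hio.symm)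
      rw [Nat.card_congr (MulAction.stabilizerEquivStabilizerOfOrbitRel h1).toEquiv,
        Nat.card_eq_fintype_card]
    simp only [w]
    rw [hst]
    rw [hQ] at hQM
    exact_mod_cast hQM
  have hbound : ∀ o, w o * ‖a o‖ ^ 2 ≤
      M * ∑ i ∈ S.filter (fun i => q (z i) = o), ‖c i‖ ^ 2 := by
    intro o
    rcases (S.filter (fun i => q (z i) = o)).eq_empty_or_nonempty with h | ⟨i, hi⟩
    · simp only [a, h]
      simp
    · have h1 := hcount o i hi
      have h2 : ‖a o‖ ^ 2 ≤ (S.filter (fun i => q (z i) = o)).card *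
          ∑ i ∈ S.filter (fun i => q (z i) = o), ‖c i‖ ^ 2 := by
        refine le_trans ?_ (sq_sum_le_card_mul_sum_sq)
        exact pow_le_pow_left₀ (norm_nonneg _) (norm_sum_le _ _) 2
      have h3 : 0 ≤ ∑ i ∈ S.filter (fun i => q (z i) = o), ‖c i‖ ^ 2 :=
        Finset.sum_nonneg fun _ _ => by positivity
      calc w o * ‖a o‖ ^ 2 ≤ w o * ((S.filter (fun i => q (z i) = o)).card *
          ∑ i ∈ S.filter (fun i => q (z i) = o), ‖c i‖ ^ 2) :=
            mul_le_mul_of_nonneg_left h2 (hw o).le
        _ = (w o * (S.filter (fun i => q (z i) = o)).card) *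
          ∑ i ∈ S.filter (fun i => q (z i) = o), ‖c i‖ ^ 2 := by ring
        _ ≤ _ := mul_le_mul_of_nonneg_right h1 h3
  calc ∑ j, ‖∑ i ∈ S, c i * f j (z i)‖ ^ 2 = ∑ j, ‖inner ℂ (v j) x‖ ^ 2 := by
        refine Finset.sum_congr rfl fun j _ => ?_
        rw [norm_inner_symm, hx1]
    _ ≤ ‖x‖ ^ 2 := hB
    _ = ∑ o ∈ O, w o * ‖a o‖ ^ 2 := hx2
    _ ≤ ∑ o ∈ O, M * ∑ i ∈ S.filter (fun i => q (z i) = o), ‖c i‖ ^ 2 :=
        Finset.sum_le_sum fun o _ => hbound o
    _ = M * ∑ i ∈ S, ‖c i‖ ^ 2 := by
        rw [← Finset.mul_sum, Finset.sum_fiberwise_of_maps_to (g := fun i => q (z i)) hOz]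

end Pool.Agent.DEN.H26
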