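import Pool.Agent.Helper22_DEN.Stmt

open scoped BigOperators

namespace Pool.Agent.DEN.H26

theorem mas : MasStmt := by
  classical
  intro G X _ _ Γ Δ hΔ hnorm hidx x hfin O hO hsep
  have hch : ∀ y, ∃ γ : Γ, y ∈ O → γ • x = y := by
    intro y
    by_cases h : y ∈ O
    · obtain ⟨γ, hγ, h1⟩ := hO y h
      exact ⟨⟨γ, hγ⟩, fun _ => h1.symm⟩
    · exact ⟨1, fun h' => absurd h' h⟩
  choose g hg using hch
  have hfq : Finite (Γ ⧸ Δ.subgroupOf Γ) := Nat.finite_of_card_ne_zero hidx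
  have := Fintype.ofFinite (Γ ⧸ Δ.subgroupOf Γ)
  have := Fintype.ofFinite (MulAction.stabilizer Γ x)
  -- the finiteness of the stabilizers in `Δ`
  let ψ : ∀ y, y ∈ O → MulAction.stabilizer Δ y → MulAction.stabilizer Γ x := fun y hy d =>
    ⟨(g y)⁻¹ * ⟨(d.1 : G), hΔ d.1.2⟩ * g y, by
      rw [MulAction.mem_stabilizer_iff, mul_smul, mul_smul, hg y hy]
      have h1 : (⟨(d.1 : G), hΔ d.1.2⟩ : Γ) • y = y := MulAction.mem_stabilizer_iff.mp d.2
      rw [h1, inv_smul_eq_iff, hg y hy]⟩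
  have hψ : ∀ y hy, Function.Injective (ψ y hy) := by
    intro y hy d d' h
    have h1 := congrArg Subtype.val h
    simp only [ψ] at h1
    have h2 := mul_left_cancel (mul_right_cancel h1)
    have h3 := congrArg Subtype.val h2
    exact Subtype.ext (Subtype.ext h3)
  have hfd : ∀ y ∈ O, Finite (MulAction.stabilizer Δ y) :=
    fun y hy => Finite.of_injective _ (hψ y hy)
  let φ : X × MulAction.stabilizer Γ x → Γ ⧸ Δ.subgroupOf Γ :=
    fun p => QuotientGroup.mk (g p.1 * p.2.1)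
  have hkey : ∀ p p' : X × MulAction.stabilizer Γ x, p.1 ∈ O → p'.1 ∈ O → φ p = φ p' →
      p.1 = p'.1 ∧ ((g p'.1 * p'.2.1 * (g p.1 * p.2.1)⁻¹ : Γ) : G) ∈ Δ := by
    intro p p' hp hp' h
    have h1 : (((g p.1 * p.2.1)⁻¹ * (g p'.1 * p'.2.1) : Γ) : G) ∈ Δ := by
      have := QuotientGroup.eq.mp h
      exact Subgroup.mem_subgroupOf.mp this
    have h2 : ((g p'.1 * p'.2.1 * (g p.1 * p.2.1)⁻¹ : Γ) : G) ∈ Δ := by
      have := hnorm _ (g p.1 * p.2.1).2 _ h1
      have h3 : ((g p.1 * p.2.1 : Γ) : G) * (((g p.1 * p.2.1)⁻¹ * (g p'.1 * p'.2.1) : Γ) : G) *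
          ((g p.1 * p.2.1 : Γ) : G)⁻¹ = ((g p'.1 * p'.2.1 * (g p.1 * p.2.1)⁻¹ : Γ) : G) := by
        push_cast
        group
      rwa [h3] at this
    refine ⟨hsep _ hp _ hp' ⟨_, h2, ?_⟩, h2⟩
    have h4 : (g p.1 * p.2.1) • x = p.1 := by
      rw [mul_smul, MulAction.mem_stabilizer_iff.mp p.2.2, hg _ hp]
    have h5 : (g p'.1 * p'.2.1) • x = p'.1 := by
      rw [mul_smul, MulAction.mem_stabilizer_iff.mp p'.2.2, hg _ hp']
    show (g p'.1 * p'.2.1 * (g p.1 * p.2.1)⁻¹) • p.1 = p'.1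
    rw [mul_smul, inv_smul_eq_iff.mpr h4.symm, h5]
  have hsum : ∑ y ∈ O, (Nat.card (MulAction.stabilizer Γ x) : ℝ) /
      Nat.card (MulAction.stabilizer Δ y) =
      ∑ p ∈ O ×ˢ (Finset.univ : Finset (MulAction.stabilizer Γ x)),
        (1 : ℝ) / Nat.card (MulAction.stabilizer Δ p.1) := by
    rw [Finset.sum_product]
    refine Finset.sum_congr rfl fun y _ => ?_
    show _ = ∑ _s : MulAction.stabilizer Γ x, (1 : ℝ) / Nat.card (MulAction.stabilizer Δ y)
    rw [Finset.sum_const, Finset.card_univ, ← Nat.card_eq_fintype_card, nsmul_eq_mul]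
    ring
  rw [hsum, ← Finset.sum_fiberwise_of_maps_to (t := Finset.univ) (g := φ)
    (fun p _ => Finset.mem_univ _)]
  have hidx' : (Δ.relIndex Γ : ℝ) = ∑ _κ : Γ ⧸ Δ.subgroupOf Γ, (1 : ℝ) := by
    rw [Finset.sum_const, Finset.card_univ, ← Nat.card_eq_fintype_card, nsmul_eq_mul, mul_one]
    rfl
  rw [hidx']
  refine Finset.sum_le_sum fun κ _ => ?_
  set F := (O ×ˢ (Finset.univ : Finset (MulAction.stabilizer Γ x))).filter (fun p => φ p = κ)
    with hF
  rcases F.eq_empty_or_nonempty with h0 | ⟨p0, hp0⟩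
  · rw [h0]; simp
  · have hp0' := Finset.mem_filter.mp hp0
    have hp0O := (Finset.mem_product.mp hp0'.1).1
    have hall : ∀ p ∈ F, p.1 = p0.1 := by
      intro p hp
      have hp' := Finset.mem_filter.mp hp
      have hpO := (Finset.mem_product.mp hp'.1).1
      exact (hkey p p0 hpO hp0O (hp'.2.trans hp0'.2.symm)).1
    have hc : F.card ≤ Nat.card (MulAction.stabilizer Δ p0.1) := by
      have := hfd _ hp0O
      have := Fintype.ofFinite (MulAction.stabilizer Δ p0.1)
      rw [Nat.card_eq_fintype_card, ← Finset.card_univ]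
      have hmem : ∀ p ∈ F, ((g p0.1 * p.2.1 * (g p0.1 * p0.2.1)⁻¹ : Γ) : G) ∈ Δ := by
        intro p hp
        have hp' := Finset.mem_filter.mp hp
        have hpO := (Finset.mem_product.mp hp'.1).1
        have h1 := (hkey p0 p hp0O hpO (hp0'.2.trans hp'.2.symm)).2
        rwa [hall p hp] at h1
      refine Finset.card_le_card_of_injOn
        (fun p => if h : ((g p0.1 * p.2.1 * (g p0.1 * p0.2.1)⁻¹ : Γ) : G) ∈ Δ then
          (⟨⟨_, h⟩, by
            rw [MulAction.mem_stabilizer_iff]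
            show (g p0.1 * p.2.1 * (g p0.1 * p0.2.1)⁻¹) • p0.1 = p0.1
            have h4 : (g p0.1 * p0.2.1) • x = p0.1 := by
              rw [mul_smul, MulAction.mem_stabilizer_iff.mp p0.2.2, hg _ hp0O]
            have h5 : (g p0.1 * p.2.1) • x = p0.1 := by
              rw [mul_smul, MulAction.mem_stabilizer_iff.mp p.2.2, hg _ hp0O]
            rw [mul_smul, inv_smul_eq_iff.mpr h4.symm, h5]⟩ : MulAction.stabilizer Δ p0.1) else 1)
        (fun p _ => Finset.mem_coe.mpr (Finset.mem_univ _)) ?_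
      intro p hp p' hp' h
      simp only at h
      rw [dif_pos (hmem p hp), dif_pos (hmem p' hp')] at h
      have h1 := congrArg Subtype.val (congrArg Subtype.val h)
      simp only at h1
      have h2 := mul_right_cancel (Subtype.ext h1 :
        g p0.1 * p.2.1 * (g p0.1 * p0.2.1)⁻¹ = g p0.1 * p'.2.1 * (g p0.1 * p0.2.1)⁻¹)
      have h3 := mul_left_cancel h2
      exact Prod.ext ((hall p hp).trans (hall p' hp').symm) (Subtype.ext h3)
    have hpos : (0 : ℝ) < Nat.card (MulAction.stabilizer Δ p0.1) := by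
      have := hfd _ hp0O
      have h : 0 < Nat.card (MulAction.stabilizer Δ p0.1) := Nat.card_pos
      exact_mod_cast h
    have hs : ∑ p ∈ F, (1 : ℝ) / Nat.card (MulAction.stabilizer Δ p.1) =
        F.card * ((1 : ℝ) / Nat.card (MulAction.stabilizer Δ p0.1)) := by
      rw [Finset.sum_congr rfl fun p hp => by rw [hall p hp], Finset.sum_const, nsmul_eq_mul]
    rw [hs, mul_one_div, div_le_one hpos]
    exact_mod_cast hc

end Pool.Agent.DEN.H26
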