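import Pool.Agent.Helper26_DEN.Coord

open scoped BigOperators

namespace Pool.Agent.DEN.H26

theorem g_inv_apply {r : ℕ} {C : Matrix (Fin r) (Fin r) ℤ} {K : Type} [Field K]
    (g : grp C K) (v : LieV C (FF K)) : (g⁻¹).1 (g.1 v) = v := by
  have h : (g⁻¹ * g).1 v = v := by simp
  exact h

theorem inv_g_apply {r : ℕ} {C : Matrix (Fin r) (Fin r) ℤ} {K : Type} [Field K]
    (g : grp C K) (v : LieV C (FF K)) : g.1 ((g⁻¹).1 v) = v := by
  have h : (g * g⁻¹).1 v = v := by simp
  exact h

/-- The number of polynomials of degree `< n`. -/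
theorem card_degLT (K : Type) [Field K] [Finite K] (n : ℕ) :
    Finite (Polynomial.degreeLT K n) ∧
      Nat.card (Polynomial.degreeLT K n) = Nat.card K ^ n := by
  have e := (Polynomial.degreeLTEquiv K n).toEquiv
  refine ⟨Finite.of_equiv _ e.symm, ?_⟩
  rw [Nat.card_congr e, Nat.card_fun, Nat.card_eq_fintype_card (α := Fin n), Fintype.card_fin]

theorem scs (hLev : LevStmt) (hSct : SctStmt) (hF1 : Fld1Stmt) (hF2 : Fld2Stmt) (hF3 : Fld3Stmt)
    (hRootf : RootFinStmt) : ScsStmt := by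
  classical
  intro r C hC K _ _ P N hP hN hPN l g hg hl M₁ M₂ hM S hS hSb hSi
  have hfin : Finite (Rt C) := hRootf r C hC
  have := Fintype.ofFinite (Rt C)
  obtain ⟨b0, badd, bneg, bmul, bmono, bint, ttne, bsh, -⟩ := hF1 K
  obtain ⟨pinj, pbd, pdeg, -, pran⟩ := hF2 K
  obtain ⟨-, hcop, -⟩ := hF3 K P N hP
  have bsh' : ∀ (m n : ℤ) (a : FF K), a ∈ Bd K n → tt K ^ m * a ∈ Bd K (m + n) := by
    intro m n a ha
    refine bmul m n _ _ ?_ ha
    have := (bsh m 1).mpr (by simpa using bint 1)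
    simpa using this
  have h1B : (1 : FF K) ∈ Bd K 0 := by simpa using bint 1
  have hPne : polyL K P ≠ 0 := by
    intro h
    exact hP (pinj (by rw [h, map_zero]))
  have hNne : polyL K N ≠ 0 := by
    intro h
    exact hN (pinj (by rw [h, map_zero]))
  have hmem1 : ∀ y : FF K, y ∈ ringA K 1 ↔ ∃ p, polyL K p = y := by
    intro y
    have := Set.ext_iff.mp pran y
    exact this
  have h1A : ∀ Q : Polynomial K, (ringA K 1 : Set (FF K)) ⊆ ringA K Q := by
    intro Q y hy
    obtain ⟨p, rfl⟩ := (hmem1 y).mp hy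
    exact Subring.subset_closure (Or.inl ⟨p, rfl⟩)
  -- the entries of `s - 1`
  have hent : ∀ s ∈ S, ∀ j k : Fin r ⊕ Rt C, ∃ b : Polynomial K,
      polyL K P ^ M₂ * co (s.1 (bv j) - bv j) k = polyL K N * polyL K b ∧
      polyL K P ^ M₂ * co (s.1 (bv j) - bv j) k ∈
        Bd K (M₂ * P.natDegree + M₁ + wt l k - wt l j) := by
    intro s hs j k
    have hT := (hS s hs).2.1 (bv j) (cd_bv (zero_mem _) (one_mem _) j)
    rw [cd_iff] at hT
    obtain ⟨b, hb, hb'⟩ := hT k
    have hI := hSi s hs (bv j) (cd_bv (zero_mem _) (one_mem _) j)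
    rw [cd_iff] at hI
    have hI' := hI k
    rw [co_smul] at hI'
    have hbj : co (bv (K := K) j) k ∈ ringA K 1 := by
      have := (cd_iff _ _).mp (cd_bv (K := K) (S := (ringA K 1 : Set (FF K)))
        (zero_mem _) (one_mem _) j) k
      exact this
    have hPA : polyL K P ^ M₂ ∈ ringA K 1 := by
      apply pow_mem
      exact (hmem1 _).mpr ⟨P, rfl⟩
    have hy : polyL K P ^ M₂ * co (s.1 (bv j) - bv j) k ∈ ringA K 1 := by
      rw [co_sub, mul_sub]
      exact sub_mem hI' (mul_mem hPA hbj)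
    have hb2 : polyL K P ^ M₂ * co (s.1 (bv j) - bv j) k =
        polyL K N * (polyL K P ^ M₂ * b) := by
      rw [hb']; ring
    have hb3 : polyL K P ^ M₂ * b ∈ ringA K P := mul_mem (h1A P hPA) hb
    have hb4 : polyL K P ^ M₂ * b ∈ ringA K 1 := hcop hPN _ hb3 (by rw [← hb2]; exact hy)
    obtain ⟨p, hp⟩ := (hmem1 _).mp hb4
    refine ⟨p, by rw [hp, hb2], ?_⟩
    -- the degree
    have hd1 : co (s.1 (bv j)) k ∈ Bd K (M₁ + wt l k - wt l j) := by
      have h2 := hSb s hs (bv j) (cd_bv (b0 0) h1B j)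
      have h3 : co ((g⁻¹ * s * g).1 (bv j)) k ∈ Bd K M₁ := (cd_iff _ _).mp h2 k
      have h4 : g.1 (bv j) = tt K ^ (wt l j) • bv j := by
        apply co_ext
        intro i
        rw [tor_co hg, co_smul, co_bv]
        split_ifs with h
        · rw [h]
        · ring
      have h5 : co (s.1 (g.1 (bv j))) k = tt K ^ (wt l k) * co ((g⁻¹ * s * g).1 (bv j)) k := by
        rw [← tor_co hg]
        have : g.1 ((g⁻¹ * s * g).1 (bv j)) = s.1 (g.1 (bv j)) := by
          show g.1 ((g⁻¹).1 (s.1 (g.1 (bv j)))) = _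
          exact inv_g_apply g _
        rw [this]
      rw [h4, map_smul, co_smul] at h5
      have h6 : co (s.1 (bv j)) k =
          tt K ^ (wt l k - wt l j) * co ((g⁻¹ * s * g).1 (bv j)) k := by
        have hz : tt K ^ (wt l j) ≠ 0 := zpow_ne_zero _ ttne
        rw [zpow_sub₀ ttne]
        field_simp
        rw [← h5, mul_comm]
      rw [h6]
      have := bsh' (wt l k - wt l j) M₁ _ h3
      have he : wt l k - wt l j + (M₁ : ℤ) = M₁ + wt l k - wt l j := by ring
      rwa [he] at this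
    have hd2 : co (bv (K := K) j) k ∈ Bd K (M₁ + wt l k - wt l j) := by
      rw [co_bv]
      split_ifs with h
      · rw [h]
        exact bmono 0 _ _ (by simp) h1B
      · exact b0 _
    have hd3 : co (s.1 (bv j) - bv j) k ∈ Bd K (M₁ + wt l k - wt l j) := by
      rw [co_sub]
      have := badd _ _ _ hd1 (bneg _ _ hd2)
      rwa [← sub_eq_add_neg] at this
    have hd4 : polyL K P ^ M₂ ∈ Bd K (M₂ * P.natDegree) := by
      rw [← map_pow]
      have := pbd (P ^ M₂)
      rwa [Polynomial.natDegree_pow, Nat.cast_mul] at this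
    have := bmul _ _ _ _ hd4 hd3
    have he : (M₂ * P.natDegree : ℤ) + (M₁ + wt l k - wt l j) =
      M₂ * P.natDegree + M₁ + wt l k - wt l j := by ring
    rwa [he] at this
  -- the degree of `b`
  have hdeg : ∀ (b : Polynomial K) (m : ℤ), b ≠ 0 → polyL K N * polyL K b ∈ Bd K m →
      (N.natDegree : ℤ) + b.natDegree ≤ m := by
    intro b m hb hm
    rw [← map_mul] at hm
    have := pdeg (N * b) m (mul_ne_zero hN hb) hm
    rwa [Polynomial.natDegree_mul hN hb, Nat.cast_add] at this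
  -- `s - 1` raises the weights
  have hzero : ∀ s ∈ S, ∀ j k : Fin r ⊕ Rt C, wt l k ≤ wt l j →
      co (s.1 (bv j) - bv j) k = 0 := by
    intro s hs j k hjk
    obtain ⟨b, hb1, hb2⟩ := hent s hs j k
    by_cases hb : b = 0
    · rw [hb, map_zero, mul_zero] at hb1
      rcases mul_eq_zero.mp hb1 with h | h
      · exact absurd h (pow_ne_zero _ hPne)
      · exact h
    · rw [hb1] at hb2
      have := hdeg b _ hb hb2
      have h3 : (M₁ : ℤ) + M₂ * P.natDegree < N.natDegree := by exact_mod_cast hM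
      have h4 : (0 : ℤ) ≤ b.natDegree := by positivity
      linarith
  have hSU : ∀ s ∈ S, s ∈ Ul C K l 0 := by
    intro s hs
    apply hLev r C hC K l hl
    intro k v hv
    rw [fil_iff] at hv ⊢
    intro m hm
    have h1 : s.1 v - v = ∑ j, co v j • (s.1 (bv j) - bv j) := by
      conv_lhs => rw [expand v]
      rw [map_sum, ← Finset.sum_sub_distrib]
      refine Finset.sum_congr rfl fun j _ => ?_
      rw [map_smul, smul_sub]
    rw [h1, co_sum]
    refine Finset.sum_eq_zero fun j _ => ?_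
    rw [co_smul]
    by_cases hj : wt l j < k
    · rw [hv j hj, zero_mul]
    · rw [hzero s hs j m (by omega), mul_zero]
  -- the lattices
  let Λ : Rt C → AddSubgroup (FF K) := fun β =>
    { carrier := {y | ∃ b ∈ Polynomial.degreeLT K (ip C β.1 l).toNat,
        polyL K P ^ M₂ * y = polyL K N * polyL K b}
      add_mem' := by
        rintro a b ⟨p, hp, hp'⟩ ⟨p', hq, hq'⟩
        exact ⟨p + p', Submodule.add_mem _ hp hq, by rw [mul_add, hp', hq', map_add, mul_add]⟩
      zero_mem' := ⟨0, Submodule.zero_mem _, by simp⟩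
      neg_mem' := by
        rintro a ⟨p, hp, hp'⟩
        exact ⟨-p, Submodule.neg_mem _ hp, by rw [mul_neg, hp', map_neg, mul_neg]⟩ }
  have hΛ : ∀ β : Rt C, (Λ β : Set (FF K)).Finite ∧
      Nat.card (Λ β) ≤ Nat.card K ^ (ip C β.1 l).toNat := by
    intro β
    obtain ⟨hf, hc⟩ := card_degLT K (ip C β.1 l).toNat
    have hex : ∀ y : Λ β, ∃ b : Polynomial.degreeLT K (ip C β.1 l).toNat,
        polyL K P ^ M₂ * y.1 = polyL K N * polyL K b.1 := by
      rintro ⟨y, b, hb, hb'⟩
      exact ⟨⟨b, hb⟩, hb'⟩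
    choose φ hφ using hex
    have hinj : Function.Injective φ := by
      intro y y' h
      have h1 : polyL K P ^ M₂ * y.1 = polyL K P ^ M₂ * y'.1 := by rw [hφ, hφ, h]
      exact Subtype.ext (mul_left_cancel₀ (pow_ne_zero _ hPne) h1)
    have hfΛ : Finite (Λ β) := Finite.of_injective φ hinj
    refine ⟨Set.toFinite _, ?_⟩
    rw [← hc]
    exact Nat.card_le_card_of_injective φ hinj
  refine hSct r C hC K l hl (Nat.card K) Λ Nat.card_pos (fun β _ => hΛ β) S hSU ?_
  intro s hs β hβ i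
  obtain ⟨b, hb1, hb2⟩ := hent s hs (Sum.inr β.neg) (Sum.inl i)
  have h0 : (s.1 (EE β.neg)).1 i = co (s.1 (bv (Sum.inr β.neg)) - bv (Sum.inr β.neg)) (Sum.inl i) := by
    rw [co_sub, co_bv, if_neg (by simp), sub_zero]
    rfl
  refine ⟨b, ?_, by rw [h0]; exact hb1⟩
  rw [Polynomial.mem_degreeLT]
  by_cases hb : b = 0
  · rw [hb, Polynomial.degree_zero]
    exact WithBot.bot_lt_coe _
  · rw [hb1] at hb2
    have h1 := hdeg b _ hb hb2
    have h2 : (M₁ : ℤ) + M₂ * P.natDegree < N.natDegree := by exact_mod_cast hM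
    have h3 : wt l (Sum.inl i : Fin r ⊕ Rt C) = 0 := rfl
    have h4 : wt l (Sum.inr β.neg : Fin r ⊕ Rt C) = -ip C β.1 l := by
      show ip C β.neg.1 l = _
      rw [Rt.neg_val, ip_neg_left]
    rw [h3, h4] at h1
    rw [Polynomial.degree_eq_natDegree hb]
    have h5 : (b.natDegree : ℤ) < (ip C β.1 l).toNat := by
      rw [Int.toNat_of_nonneg hβ.le]
      linarith
    exact_mod_cast h5

end Pool.Agent.DEN.H26
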