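import Pool.Agent.Helper22_DEN.Stmt

open scoped BigOperators

namespace Pool.Agent.DEN.H26

/-- A subgroup containing all the `c β_i` contains `c`, because a root is primitive. -/
theorem root_prim (hRoots : RootSignStmt) {r : ℕ} {C : Matrix (Fin r) (Fin r) ℤ}
    (hC : SimplyLaced C) {A : Type} [AddCommGroup A] (Λ : AddSubgroup A) (β : Rt C) (c : A)
    (h : ∀ i, β.1 i • c ∈ Λ) : c ∈ Λ := by
  obtain ⟨d, hd⟩ := Int.subgroup_cyclic (Λ.comap (zmultiplesHom A c))
  have hmem : ∀ n : ℤ, n • c ∈ Λ ↔ ∃ m : ℤ, m * d = n := by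
    intro n
    have h1 : n ∈ Λ.comap (zmultiplesHom A c) ↔ n • c ∈ Λ := by
      rw [AddSubgroup.mem_comap, zmultiplesHom_apply]
    rw [← h1, hd, AddSubgroup.mem_closure_singleton]
    simp
  have hx : ∀ i, ∃ m : ℤ, m * d = β.1 i := fun i => (hmem _).mp (h i)
  choose x hx using hx
  have hβ : β.1 = d • x := by
    funext i
    rw [Pi.smul_apply, smul_eq_mul, mul_comm, hx]
  have h2 : d * (d * ip C x x) = 2 := by
    rw [← ip_smul_right, ← ip_smul_left, ← hβ]
    exact β.2
  obtain ⟨m, hm⟩ := (hRoots r C hC).2.1 x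
  rw [hm] at h2
  have h3 : d * (d * m) = 1 := by
    have : 2 * (d * (d * m)) = 2 * 1 := by linarith
    exact mul_left_cancel₀ (by norm_num) this
  have h4 : (1 : ℤ) • c ∈ Λ := (hmem 1).mpr ⟨d * m, by rw [mul_comm]; exact h3⟩
  rwa [one_smul] at h4

theorem sct (hCar : CarStmt) (hRootf : RootFinStmt) (hRoots : RootSignStmt) : SctStmt := by
  classical
  intro r C hC K _ l hl q Λ hq hΛ S hS hSΛ
  have hfin : Finite (Rt C) := hRootf r C hC
  have := Fintype.ofFinite (Rt C)
  have hcar := hCar r C hC K l hl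
  -- the bound on the heights
  obtain ⟨H, hH⟩ : ∃ H : ℕ, ∀ β : Rt C, ht β < H := by
    refine ⟨(∑ β : Rt C, (ht β).toNat) + 1, fun β => ?_⟩
    have h1 : (ht β).toNat ≤ ∑ β : Rt C, (ht β).toNat :=
      Finset.single_le_sum (f := fun β : Rt C => (ht β).toNat) (fun _ _ => Nat.zero_le _)
        (Finset.mem_univ β)
    have h2 := Int.self_le_toNat (ht β)
    push_cast
    have h3 : ((ht β).toNat : ℤ) ≤ ∑ β : Rt C, ((ht β).toNat : ℤ) := by exact_mod_cast h1
    omega
  let nn : ℕ → ℕ := fun k =>
    ∑ β ∈ Finset.univ.filter (fun β : Rt C => 0 < ip C β.1 l ∧ (k : ℤ) ≤ ht β), (ip C β.1 l).toNat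
  let B : ℕ → Finset (Rt C) := fun k =>
    Finset.univ.filter (fun β : Rt C => 0 < ip C β.1 l ∧ ht β = k)
  have hnn : ∀ k, nn k = (∑ β ∈ B k, (ip C β.1 l).toNat) + nn (k + 1) := by
    intro k
    simp only [nn, B]
    rw [← Finset.sum_union]
    · congr 1
      ext β
      simp only [Finset.mem_filter, Finset.mem_univ, true_and, Finset.mem_union]
      push_cast
      constructor
      · rintro ⟨h1, h2⟩
        rcases h2.eq_or_lt with h | h
        · exact Or.inl ⟨h1, h.symm⟩
        · exact Or.inr ⟨h1, by omega⟩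
      · rintro (⟨h1, h2⟩ | ⟨h1, h2⟩)
        · exact ⟨h1, h2.ge⟩
        · exact ⟨h1, by omega⟩
    · rw [Finset.disjoint_left]
      intro β h1 h2
      simp only [Finset.mem_filter, Finset.mem_univ, true_and] at h1 h2
      push_cast at h2
      omega
  have hmono : ∀ k, Ul C K l k ≤ Ul C K l 0 := by
    intro k
    apply Subgroup.closure_mono
    rintro g ⟨β, a, h1, h2, h3⟩
    exact ⟨β, a, h1, le_trans (by push_cast; positivity) h2, h3⟩
  -- the induction
  have key : ∀ j k : ℕ, k + j = H → ∀ T : Finset (grp C K), (∀ s ∈ T, s ∈ S) →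
      (∀ s ∈ T, ∀ s' ∈ T, s⁻¹ * s' ∈ Ul C K l k) → T.card ≤ q ^ nn k := by
    intro j
    induction j with
    | zero =>
      intro k hk T _ hT
      have hbot : Ul C K l k = ⊥ := by
        unfold Ul
        rw [Subgroup.closure_eq_bot_iff]
        rintro g ⟨β, a, h1, h2, h3⟩
        have := hH β
        omega
      have h1 : T.card ≤ 1 := by
        rw [Finset.card_le_one]
        intro a ha b hb
        have := hT a ha b hb
        rw [hbot, Subgroup.mem_bot, inv_mul_eq_one] at this
        exact this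
      exact h1.trans (Nat.one_le_pow _ _ hq)
    | succ j ih =>
      intro k hk T hTS hT
      rcases T.eq_empty_or_nonempty with h0 | ⟨s1, hs1⟩
      · rw [h0]; simp
      have hcc : ∀ s : grp C K, ∀ β : Rt C, ∃ c : FF K, s ∈ T → β ∈ B k →
          ((s1⁻¹ * s).1 (EE β.neg)).1 = fun i => -(c * ((β.1 i : ℤ) : FF K)) := by
        intro s β
        by_cases hs : s ∈ T
        · by_cases hβ : β ∈ B k
          · obtain ⟨_, h1, h2⟩ := Finset.mem_filter.mp hβ
            obtain ⟨c, hc⟩ := (hcar k).1 _ (hT s1 hs1 s hs) β h1 h2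
            exact ⟨c, fun _ _ => hc⟩
          · exact ⟨0, fun _ h => absurd h hβ⟩
        · exact ⟨0, fun h => absurd h hs⟩
      choose c hc using hcc
      have hcΛ : ∀ s ∈ T, ∀ β ∈ B k, c s β ∈ Λ β := by
        intro s hs β hβ
        obtain ⟨_, h1, h2⟩ := Finset.mem_filter.mp hβ
        apply root_prim hRoots hC (Λ β) β
        intro i
        have h3 := (hcar k).2.2 s1 (hS _ (hTS _ hs1)) _ (hT s1 hs1 s hs) β h1 h2
        rw [mul_inv_cancel_left, hc s β hs hβ] at h3
        have h4 := congrFun h3 i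
        rw [Pi.add_apply] at h4
        have h5 : β.1 i • c s β = (s1.1 (EE β.neg)).1 i - (s.1 (EE β.neg)).1 i := by
          rw [h4, zsmul_eq_mul]; ring
        rw [h5]
        exact (Λ β).sub_mem (hSΛ _ (hTS _ hs1) β h1 i) (hSΛ _ (hTS _ hs) β h1 i)
      let f : grp C K → (Rt C → FF K) := fun s β => if β ∈ B k then c s β else 0
      have hfib : ∀ a ∈ T.image f, (T.filter (fun s => f s = a)).card ≤ q ^ nn (k + 1) := by
        intro a _
        apply ih (k + 1) (by omega)
        · intro s hs
          exact hTS s (Finset.mem_filter.mp hs).1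
        · intro s hs s' hs'
          obtain ⟨hsT, hsa⟩ := Finset.mem_filter.mp hs
          obtain ⟨hsT', hsa'⟩ := Finset.mem_filter.mp hs'
          apply (hcar k).2.1 _ (hT s hsT s' hsT')
          intro β h1 h2
          have hβ : β ∈ B k := Finset.mem_filter.mpr ⟨Finset.mem_univ _, h1, h2⟩
          have h3 := (hcar k).2.2 (s1⁻¹ * s) (hmono k (hT s1 hs1 s hsT)) _ (hT s hsT s' hsT') β h1 h2
          have h4 : s1⁻¹ * s * (s⁻¹ * s') = s1⁻¹ * s' := by group
          rw [h4, hc s β hsT hβ, hc s' β hsT' hβ] at h3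
          have h5 : c s β = c s' β := by
            have := congrFun (hsa.trans hsa'.symm) β
            simpa only [f, if_pos hβ] using this
          rw [h5] at h3
          exact left_eq_add.mp h3
      have h1 := Finset.card_le_mul_card_image T (q ^ nn (k + 1)) hfib
      let P : Finset (Rt C → FF K) := Fintype.piFinset (fun β =>
        if h : β ∈ B k then ((hΛ β (Finset.mem_filter.mp h).2.1).1).toFinset else {0})
      have h2 : T.image f ⊆ P := by
        intro a ha
        obtain ⟨s, hs, rfl⟩ := Finset.mem_image.mp ha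
        rw [Fintype.mem_piFinset]
        intro β
        by_cases hβ : β ∈ B k
        · rw [dif_pos hβ, Set.Finite.mem_toFinset]
          simp only [f, if_pos hβ]
          exact hcΛ s hs β hβ
        · rw [dif_neg hβ, Finset.mem_singleton]
          simp only [f, if_neg hβ]
      have h3 : P.card ≤ q ^ (∑ β ∈ B k, (ip C β.1 l).toNat) := by
        rw [Fintype.card_piFinset, ← Finset.prod_pow_eq_pow_sum, ← Finset.prod_subset
          (Finset.subset_univ (B k)) (f := fun β => (if h : β ∈ B k then
            ((hΛ β (Finset.mem_filter.mp h).2.1).1).toFinset else ({0} : Finset (FF K))).card)]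
        · apply Finset.prod_le_prod' 
          intro β hβ
          rw [dif_pos hβ]
          have h4 := (hΛ β (Finset.mem_filter.mp hβ).2.1)
          have h5 := (Set.ncard_eq_toFinset_card (Λ β : Set (FF K)) h4.1).symm
          exact h5.le.trans h4.2
        · intro β _ hβ
          rw [dif_neg hβ]
          rfl
      calc T.card ≤ q ^ nn (k + 1) * (T.image f).card := h1
        _ ≤ q ^ nn (k + 1) * q ^ (∑ β ∈ B k, (ip C β.1 l).toNat) :=
            Nat.mul_le_mul_left _ ((Finset.card_le_card h2).trans h3)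
        _ = q ^ nn k := by rw [hnn k, pow_add, mul_comm]
  have hfinal := key H 0 (by omega) S (fun s hs => hs)
    (fun s hs s' hs' => mul_mem (inv_mem (hS s hs)) (hS s' hs'))
  refine hfinal.trans (Nat.pow_le_pow_right hq ?_)
  unfold dep
  rw [finsum_eq_sum_of_fintype]
  exact Finset.sum_le_sum_of_subset (Finset.filter_subset _ _)

end Pool.Agent.DEN.H26
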