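import Pool.Agent.Helper26_DEN.Scs

open scoped BigOperators

namespace Pool.Agent.DEN.H26

/-- Regrouping a finite sum. -/
theorem finsum_S {Y : Type} (c : Y → ℂ) (F : Y → ℂ) (hc : (Function.support c).Finite) :
    ∑ᶠ y, c y * F y = ∑ y ∈ hc.toFinset, c y * F y := by
  apply finsum_eq_sum_of_support_subset
  intro y hy
  rw [Set.Finite.coe_toFinset]
  exact left_ne_zero_of_mul hy

theorem finsum_N {Y : Type} (c : Y → ℂ) (hc : (Function.support c).Finite) :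
    ∑ᶠ y, ‖c y‖ ^ 2 = ∑ y ∈ hc.toFinset, ‖c y‖ ^ 2 := by
  apply finsum_eq_sum_of_support_subset
  intro y hy
  rw [Set.Finite.coe_toFinset]
  intro h
  exact hy (by simp [h])

theorem thi (hBes : BesStmt) (hScs : ScsStmt) (hBdg : BdgStmt) (hNrm : NrmStmt) (hFin : FinStmt)
    (hFsp : FspStmt) : ThiStmt := by
  classical
  intro r C hC K _ _ N hN n f hcusp hpet ρ hρ c hcf hc mu hmu γ hγ l g hg hl
  have hBd := hBdg r C hC K
  have hNr := hNrm r C hC K 1 N one_ne_zero hN isCoprime_one_left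
  obtain ⟨-, hst, -⟩ := hFin r C hC K
  set M : ℕ := Nat.card K ^ dep C l with hM
  have key : ∀ i ∈ hcf.toFinset, ∀ Q : Finset (cong C K 1 N × XX C K),
      (∀ p ∈ Q, p.2 ∈ hcf.toFinset ∧ p.1 • ((γ * g) • i) = (γ * g) • p.2) → Q.card ≤ M := by
    intro y hy Q hQ
    obtain ⟨a, hya, ha1, ha2⟩ := hc y (by
      rw [Set.Finite.mem_toFinset] at hy; exact hy)
    let φ : cong C K 1 N × XX C K → grp C K := fun p => γ⁻¹ * p.1.1 * γ
    have hinj : Set.InjOn φ (Q : Set (cong C K 1 N × XX C K)) := by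
      intro p hp p' hp' h
      have h1 : p.1.1 = p'.1.1 := mul_left_cancel (mul_right_cancel h)
      have h2 : p.1 = p'.1 := Subtype.ext h1
      have h3 := (hQ p hp).2
      have h4 := (hQ p' hp').2
      rw [h2, h4] at h3
      exact Prod.ext h2 (smul_left_cancel _ h3).symm
    rw [← Finset.card_image_of_injOn hinj]
    refine hScs r C hC K 1 N one_ne_zero hN isCoprime_one_left l g hg hl (2 * ρ) 0
      (by simpa using hρ) (Q.image φ) ?_ ?_ ?_
    · intro s hs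
      obtain ⟨p, hp, rfl⟩ := Finset.mem_image.mp hs
      have := hNr.1 γ⁻¹ (inv_mem hγ) p.1.1 p.1.2
      rwa [inv_inv] at this
    · intro s hs
      obtain ⟨p, hp, rfl⟩ := Finset.mem_image.mp hs
      obtain ⟨hp1, hp2⟩ := hQ p hp
      obtain ⟨a', hya', ha1', ha2'⟩ := hc p.2 (by
        rw [Set.Finite.mem_toFinset] at hp1; exact hp1)
      have h1 : (QuotientGroup.mk (p.1.1 * (γ * g * a)) : XX C K) =
          QuotientGroup.mk (γ * g * a') := by
        rw [hya, hya'] at hp2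
        exact hp2
      have h2 : (γ * g * a')⁻¹ * (p.1.1 * (γ * g * a)) ∈ maxK C K := QuotientGroup.eq.mp h1.symm
      have h3 := ((hBd.2.2 _).mp h2).1
      have h4 : g⁻¹ * (γ⁻¹ * p.1.1 * γ) * g =
          a' * ((γ * g * a')⁻¹ * (p.1.1 * (γ * g * a))) * a⁻¹ := by group
      show bnd ((2 * ρ : ℕ) : ℤ) (g⁻¹ * (γ⁻¹ * p.1.1 * γ) * g)
      rw [h4]
      have h5 := hBd.2.1 _ _ _ _ (hBd.2.1 _ _ _ _ ha1' h3) ha2
      have h6 : (ρ : ℤ) + 0 + ρ = ((2 * ρ : ℕ) : ℤ) := by push_cast; ring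
      rwa [h6] at h5
    · intro s hs v hv
      obtain ⟨p, hp, rfl⟩ := Finset.mem_image.mp hs
      rw [pow_zero, one_smul]
      have h1 := hNr.1 γ⁻¹ (inv_mem hγ) p.1.1 p.1.2
      rw [inv_inv] at h1
      exact hNr.2.2.2.2.2 _ h1.1 v hv
  have hB := hBes (cong C K 1 N) (XX C K) (fun x => hst N x) n f
    (fun j γ x => (hcusp j).1 γ.1 γ.2 x) (fun j => hFsp r C hC K N hN (f j) (hcusp j))
    hpet (XX C K) hcf.toFinset (fun y => (γ * g) • y) c M key
  have h1 : ∀ j, ∑ y ∈ hcf.toFinset, c y * f j ((γ * g) • y) = mu j * f j (γ • pt g) := by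
    intro j
    rw [← finsum_S c (fun y => f j ((γ * g) • y)) hcf, hmu j (γ * g)]
    rfl
  simp only [h1, norm_mul, mul_pow] at hB
  rw [finsum_N c hcf]
  refine hB.trans_eq ?_
  rw [hM]
  push_cast
  ring

theorem thf (hBes : BesStmt) (hScs : ScsStmt) (hBdg : BdgStmt) (hNrm : NrmStmt) (hFin : FinStmt)
    (hFsp : FspStmt) : ThfStmt := by
  classical
  intro r C hC K _ _ N hN n f hcusp hpet P hP hPN ρ hρ c hcf hc mu hmu γ hγ l g hg hl
  have hBd := hBdg r C hC K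
  have hNr1 := hNrm r C hC K 1 N one_ne_zero hN isCoprime_one_left
  have hNr := hNrm r C hC K P N hP hN hPN
  obtain ⟨-, hst, -⟩ := hFin r C hC K
  set M : ℕ := Nat.card K ^ dep C l with hM
  let Y := (cong C K P N) ⧸ (cong C K 1 N).subgroupOf (cong C K P N)
  have hout : ∀ y ∈ hcf.toFinset, ∀ v : LieV C (FF K), Cd (ringA K 1 : Set (FF K)) v →
      Cd (ringA K 1 : Set (FF K)) (polyL K P ^ ρ • ((y : Y).out.1.1 v)) ∧
      Cd (ringA K 1 : Set (FF K)) (polyL K P ^ ρ • (((y : Y).out⁻¹).1.1 v)) := by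
    intro y hy v hv
    obtain ⟨a, hya, ha⟩ := hc y (by rw [Set.Finite.mem_toFinset] at hy; exact hy)
    obtain ⟨h, hh⟩ := QuotientGroup.mk_out_eq_mul ((cong C K 1 N).subgroupOf (cong C K P N)) a
    rw [← hya] at hh
    have hh1 : h.1.1 ∈ cong C K 1 N := Subgroup.mem_subgroupOf.mp h.2
    constructor
    · have h1 : (y : Y).out.1.1 v = a.1.1 (h.1.1.1 v) := by
        rw [hh]; rfl
      rw [h1]
      exact (ha _ (hNr1.2.2.2.2.2 _ hh1.1 v hv)).1
    · have h1 : ((y : Y).out⁻¹).1.1 v = (h.1.1⁻¹ : grp C K).1 ((a⁻¹).1.1 v) := by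
        rw [hh, mul_inv_rev]; rfl
      rw [h1, ← map_smul]
      exact hNr1.2.2.2.2.2 _ (inv_mem hh1.1) _ (ha v hv).2
  have key : ∀ i ∈ hcf.toFinset, ∀ Q : Finset (cong C K 1 N × Y),
      (∀ p ∈ Q, p.2 ∈ hcf.toFinset ∧
        p.1 • (((i : Y).out.1)⁻¹ • (γ • pt g)) = ((p.2 : Y).out.1)⁻¹ • (γ • pt g)) →
        Q.card ≤ M := by
    intro y hy Q hQ
    let s0 : cong C K 1 N × Y → grp C K := fun p => (p.2 : Y).out.1 * p.1.1 * (y : Y).out.1⁻¹
    let φ : cong C K 1 N × Y → grp C K := fun p => γ⁻¹ * s0 p * γ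
    have hs0 : ∀ p ∈ Q, s0 p ∈ cong C K P N := by
      intro p hp
      exact mul_mem (mul_mem (p.2 : Y).out.2 (hNr.2.2.1 p.1.2)) (inv_mem (y : Y).out.2)
    have hinj : Set.InjOn φ (Q : Set (cong C K 1 N × Y)) := by
      intro p hp p' hp' h
      have h1 : s0 p = s0 p' := mul_left_cancel (mul_right_cancel h)
      have h2 : (p.2 : Y).out.1 * p.1.1 = (p'.2 : Y).out.1 * p'.1.1 := mul_right_cancel h1
      have h3 : p.2 = p'.2 := by
        rw [← QuotientGroup.out_eq' p.2, ← QuotientGroup.out_eq' p'.2]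
        rw [QuotientGroup.eq, Subgroup.mem_subgroupOf]
        have h4 : (((p.2 : Y).out⁻¹ * (p'.2 : Y).out : cong C K P N) : grp C K) =
            p.1.1 * p'.1.1⁻¹ := by
          push_cast
          rw [eq_mul_inv_iff_mul_eq, mul_assoc, ← h2]
          group
        rw [h4]
        exact mul_mem p.1.2 (inv_mem p'.1.2)
      rw [h3] at h2
      exact Prod.ext (Subtype.ext (mul_left_cancel h2)) h3
    rw [← Finset.card_image_of_injOn hinj]
    refine hScs r C hC K P N hP hN hPN l g hg hl 0 (2 * ρ)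
      (by simpa using hρ) (Q.image φ) ?_ ?_ ?_
    · intro s hs
      obtain ⟨p, hp, rfl⟩ := Finset.mem_image.mp hs
      have := hNr.1 γ⁻¹ (hNr.2.1 (inv_mem hγ)) _ (hs0 p hp)
      rwa [inv_inv] at this
    · intro s hs
      obtain ⟨p, hp, rfl⟩ := Finset.mem_image.mp hs
      obtain ⟨hp1, hp2⟩ := hQ p hp
      have h1 : (QuotientGroup.mk (p.1.1 * ((y : Y).out.1⁻¹ * (γ * g))) : XX C K) =
          QuotientGroup.mk ((p.2 : Y).out.1⁻¹ * (γ * g)) := hp2
      have h2 := QuotientGroup.eq.mp h1.symm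
      have h3 := ((hBd.2.2 _).mp h2).1
      have h4 : g⁻¹ * (γ⁻¹ * s0 p * γ) * g =
          ((p.2 : Y).out.1⁻¹ * (γ * g))⁻¹ * (p.1.1 * ((y : Y).out.1⁻¹ * (γ * g))) := by
        simp only [s0]
        group
      show bnd ((0 : ℕ) : ℤ) (g⁻¹ * (γ⁻¹ * s0 p * γ) * g)
      rw [h4]
      exact h3
    · intro s hs v hv
      obtain ⟨p, hp, rfl⟩ := Finset.mem_image.mp hs
      obtain ⟨hp1, hp2⟩ := hQ p hp
      have h1 : Cd (ringA K 1 : Set (FF K)) (γ.1 v) := hNr1.2.2.2.2.2 _ hγ v hv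
      have h2 := (hout y hy _ h1).2
      have h3 := hNr1.2.2.2.2.2 _ p.1.2.1 _ h2
      have h4 := (hout p.2 hp1 _ h3).1
      have h5 := hNr1.2.2.2.2.2 _ (inv_mem hγ) _ h4
      have h6 : polyL K P ^ (2 * ρ) • (φ p).1 v = (γ⁻¹ : grp C K).1 (polyL K P ^ ρ •
          ((p.2 : Y).out.1.1 (p.1.1.1 (polyL K P ^ ρ • (((y : Y).out⁻¹).1.1 (γ.1 v)))))) := by
        rw [map_smul, map_smul, map_smul, map_smul, smul_smul, ← pow_add, two_mul]
        rfl
      rw [h6]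
      exact h5
  have hB := hBes (cong C K 1 N) (XX C K) (fun x => hst N x) n f
    (fun j γ x => (hcusp j).1 γ.1 γ.2 x) (fun j => hFsp r C hC K N hN (f j) (hcusp j))
    hpet Y hcf.toFinset (fun δ => ((δ : Y).out.1)⁻¹ • (γ • pt g)) c M key
  have h1 : ∀ j, ∑ y ∈ hcf.toFinset, c y * f j (((y : Y).out.1)⁻¹ • (γ • pt g)) =
      mu j * f j (γ • pt g) := by
    intro j
    rw [← finsum_S c (fun y => f j (((y : Y).out.1)⁻¹ • (γ • pt g))) hcf, hmu j (γ • pt g)]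
  have h2 : ∀ j, ‖mu j‖ ^ 2 * ‖f j (γ • pt g)‖ ^ 2 =
      ‖∑ y ∈ hcf.toFinset, c y * f j (((y : Y).out.1)⁻¹ • (γ • pt g))‖ ^ 2 := by
    intro j
    rw [h1, norm_mul, mul_pow]
  rw [finsum_N c hcf, Finset.sum_congr rfl fun j _ => h2 j]
  refine hB.trans_eq ?_
  rw [hM]
  push_cast
  ring

end Pool.Agent.DEN.H26
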