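import Pool.Agent.Helper22_DEN.Stmt

open scoped BigOperators

namespace Pool.Agent.DEN.H26

section
variable {r : ℕ} {C : Matrix (Fin r) (Fin r) ℤ}

/-- All the coordinates of a vector. -/
def co {R : Type} (v : LieV C R) : Fin r ⊕ Rt C → R := Sum.elim v.1 v.2

/-- The weights of the basis vectors. -/
def wt (l : Fin r → ℤ) : Fin r ⊕ Rt C → ℤ := Sum.elim (fun _ => 0) (fun β => ip C β.1 l)

theorem co_ext {R : Type} {v w : LieV C R} (h : ∀ j, co v j = co w j) : v = w :=
  Prod.ext (funext fun i => h (Sum.inl i)) (funext fun β => h (Sum.inr β))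

theorem co_add {R : Type} [CommRing R] (v w : LieV C R) (j) : co (v + w) j = co v j + co w j := by
  cases j <;> rfl

theorem co_sub {R : Type} [CommRing R] (v w : LieV C R) (j) : co (v - w) j = co v j - co w j := by
  cases j <;> rfl

theorem co_smul {R : Type} [CommRing R] (a : R) (v : LieV C R) (j) :
    co (a • v) j = a * co v j := by
  cases j <;> rfl

theorem co_zero {R : Type} [CommRing R] (j) : co (0 : LieV C R) j = 0 := by
  cases j <;> rfl

theorem co_sum {R : Type} [CommRing R] {ι : Type} (s : Finset ι) (f : ι → LieV C R) (j) :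
    co (∑ i ∈ s, f i) j = ∑ i ∈ s, co (f i) j := by
  classical
  induction s using Finset.induction_on with
  | empty => simp [co_zero]
  | insert a s ha ih => rw [Finset.sum_insert ha, Finset.sum_insert ha, co_add, ih]

theorem cd_iff {R : Type} (S : Set R) [CommRing R] (v : LieV C R) :
    Cd S v ↔ ∀ j, co v j ∈ S := by
  constructor
  · rintro ⟨h1, h2⟩ j
    cases j with
    | inl i => exact h1 i
    | inr β => exact h2 β
  · intro h
    exact ⟨fun i => h (Sum.inl i), fun β => h (Sum.inr β)⟩

variable {K : Type} [Field K]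

theorem fil_iff (l : Fin r → ℤ) (k : ℤ) (v : LieV C (FF K)) :
    Fil l k v ↔ ∀ j, wt l j < k → co v j = 0 := by
  constructor
  · rintro ⟨h1, h2⟩ j hj
    cases j with
    | inl i => exact congrFun (h1 hj) i
    | inr β => exact h2 β hj
  · intro h
    exact ⟨fun hk => funext fun i => h (Sum.inl i) hk, fun β hβ => h (Sum.inr β) hβ⟩

theorem tor_co {l : Fin r → ℤ} {g : grp C K} (hg : IsTor l g) (v : LieV C (FF K)) (j) :
    co (g.1 v) j = tt K ^ (wt l j) * co v j := by
  rw [hg v]
  cases j with
  | inl i => simp [co, wt]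
  | inr β => rfl

/-- The basis vectors. -/
noncomputable def bv : Fin r ⊕ Rt C → LieV C (FF K) :=
  Sum.elim (fun i => (Pi.single i 1, 0)) (fun β => EE β)

open Classical in
theorem co_bv (j k : Fin r ⊕ Rt C) : co (bv (K := K) j) k = if k = j then 1 else 0 := by
  cases j with
  | inl i =>
    cases k with
    | inl i' => simp [co, bv, Pi.single_apply]
    | inr β => simp [co, bv]
  | inr β =>
    cases k with
    | inl i' => simp [co, bv, EE]
    | inr β => simp [co, bv, EE]

theorem expand [Fintype (Rt C)] (v : LieV C (FF K)) : v = ∑ j, co v j • bv j := by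
  classical
  apply co_ext
  intro k
  rw [co_sum]
  simp only [co_smul, co_bv]
  simp

theorem cd_bv {S : Set (FF K)} (h0 : (0 : FF K) ∈ S) (h1 : (1 : FF K) ∈ S)
    (j : Fin r ⊕ Rt C) : Cd S (bv (K := K) j) := by
  classical
  rw [cd_iff]
  intro k
  rw [co_bv]
  split_ifs
  · exact h1
  · exact h0

end

end Pool.Agent.DEN.H26
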